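import Pool.Agent.H798.BV.Stm7

set_option autoImplicit false

/-!
# (L3b) Gaussian decay of a product for small `a`
-/

namespace Pool.Agent.H695.BV

open Pool.Agent.H798.BV

lemma any_le (z : ℂ) : ‖1 - z‖ ≤ Real.exp (-z.re + ‖z‖ ^ 2 / 2) := by
  have h1 : ‖1 - z‖ ^ 2 = 1 + (-2 * z.re + ‖z‖ ^ 2) := by
    rw [← Complex.normSq_eq_norm_sq, ← Complex.normSq_eq_norm_sq, Complex.normSq_apply,
      Complex.normSq_apply]
    simp only [Complex.sub_re, Complex.one_re, Complex.sub_im, Complex.one_im]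
    ring
  have h2 : 1 + (-2 * z.re + ‖z‖ ^ 2) ≤ Real.exp (-2 * z.re + ‖z‖ ^ 2) := by
    have := Real.add_one_le_exp (-2 * z.re + ‖z‖ ^ 2)
    linarith
  have h3 : Real.exp (-2 * z.re + ‖z‖ ^ 2) = Real.exp (-z.re + ‖z‖ ^ 2 / 2) ^ 2 := by
    rw [← Real.exp_nat_mul]
    congr 1
    push_cast
    ring
  rw [← h1, h3] at h2
  exact (sq_le_sq₀ (norm_nonneg _) (Real.exp_pos _).le).1 h2

lemma small_le (z : ℂ) (hz : ‖z‖ ≤ 1 / 2) :
    ‖1 - z‖ ≤ Real.exp (-z.re - (z ^ 2).re / 2 + ‖z‖ ^ 3) := by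
  have hz1 : ‖-z‖ < 1 := by
    rw [norm_neg]
    linarith
  have h1 := Complex.norm_log_sub_logTaylor_le 2 hz1
  have h2 : Complex.logTaylor (2 + 1) (-z) = -z - z ^ 2 / 2 := by
    unfold Complex.logTaylor
    simp only [Finset.sum_range_succ, Finset.sum_range_zero]
    push_cast
    ring
  rw [h2, norm_neg] at h1
  have h3 : (1 : ℂ) + -z ≠ 0 := by
    intro h
    have h4 : z = 1 := by linear_combination -h
    rw [h4, norm_one] at hz
    norm_num at hz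
  have h5 : ‖1 - z‖ = Real.exp (Complex.log (1 + -z)).re := by
    rw [← Complex.norm_exp, Complex.exp_log h3, sub_eq_add_neg]
  rw [h5]
  apply Real.exp_le_exp.2
  have h6 : (Complex.log (1 + -z)).re =
      (-z - z ^ 2 / 2).re + (Complex.log (1 + -z) - (-z - z ^ 2 / 2)).re := by
    rw [Complex.sub_re (Complex.log (1 + -z))]
    ring
  have h7 : (-z - z ^ 2 / 2).re = -z.re - (z ^ 2).re / 2 := by
    rw [Complex.sub_re, Complex.neg_re]
    congr 1
    exact Complex.div_ofNat_re (z ^ 2) 2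
  have h8 : (Complex.log (1 + -z) - (-z - z ^ 2 / 2)).re ≤ ‖z‖ ^ 3 := by
    refine (Complex.re_le_norm _).trans (h1.trans ?_)
    have h9 : (1 - ‖z‖)⁻¹ ≤ 2 := by
      rw [inv_le_comm₀ (by linarith) (by norm_num)]
      linarith
    have h10 : 0 ≤ ‖z‖ ^ 3 := by positivity
    have h11 : ‖z‖ ^ (2 + 1) * (1 - ‖z‖)⁻¹ ≤ ‖z‖ ^ 3 * 2 := mul_le_mul_of_nonneg_left h9 h10
    have h12 : ‖z‖ ^ (2 + 1) * (1 - ‖z‖)⁻¹ / ((2 : ℕ) + 1 : ℝ) ≤ ‖z‖ ^ 3 * 2 / 3 := by
      have e : ((2 : ℕ) + 1 : ℝ) = 3 := by norm_num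
      rw [e]
      linarith
    linarith
  rw [h6, h7]
  linarith

theorem t_L3b : S_L3b := by
  refine ⟨Real.exp 1, by have := Real.add_one_le_exp (1 : ℝ); linarith, ?_⟩
  intro m l a U hm ha ha1 hU0 hU1 hl2 hs hbig hY S hS u hu0 hua
  classical
  have hM : (1 : ℝ) ≤ (m : ℝ) := by exact_mod_cast hm
  have hM0 : (0 : ℝ) < (m : ℝ) := by linarith
  have hu1 : u ≤ 1 / 32 := hua.trans ha1
  -- the exponents
  set F : Fin m → ℝ := fun k => if 2 < ‖l k‖ then u ^ 2 / 2 * ‖l k‖ ^ 2 else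
    -(u ^ 2 / 2) * ((l k) ^ 2).re + 2 * u ^ 3 * ‖l k‖ ^ 2 with hF
  set E : Fin m → ℝ := fun k => -(u * (l k).re) + F k with hE
  have hre : ∀ z : ℂ, ((u : ℂ) * z).re = u * z.re := fun z => Complex.re_ofReal_mul u z
  have hnorm : ∀ z : ℂ, ‖(u : ℂ) * z‖ = u * ‖z‖ := by
    intro z
    rw [norm_mul, Complex.norm_real, Real.norm_eq_abs, abs_of_nonneg hu0]
  have hpt : ∀ k, ‖1 - (u : ℂ) * l k‖ ≤ Real.exp (E k) := by
    intro k
    by_cases hk : 2 < ‖l k‖
    · have h1 := any_le ((u : ℂ) * l k)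
      rw [hre, hnorm] at h1
      refine h1.trans (Real.exp_le_exp.2 (le_of_eq ?_))
      simp only [hE, hF, if_pos hk]
      ring
    · have hk' : ‖l k‖ ≤ 2 := not_lt.1 hk
      have h0 : ‖(u : ℂ) * l k‖ ≤ 1 / 2 := by
        rw [hnorm]
        have := norm_nonneg (l k)
        nlinarith
      have h1 := small_le ((u : ℂ) * l k) h0
      have h2 : (((u : ℂ) * l k) ^ 2).re = u ^ 2 * ((l k) ^ 2).re := by
        have e : ((u : ℂ) * l k) ^ 2 = ((u ^ 2 : ℝ) : ℂ) * (l k) ^ 2 := by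
          push_cast
          ring
        rw [e, Complex.re_ofReal_mul]
      rw [hre, hnorm, h2] at h1
      refine h1.trans (Real.exp_le_exp.2 ?_)
      simp only [hE, hF, if_neg hk]
      have h3 : (u * ‖l k‖) ^ 3 ≤ 2 * u ^ 3 * ‖l k‖ ^ 2 := by
        have h4 : ‖l k‖ ^ 3 ≤ 2 * ‖l k‖ ^ 2 := by
          have h5 : 0 ≤ ‖l k‖ ^ 2 := by positivity
          nlinarith
        have h6 : 0 ≤ u ^ 3 := by positivity
        have h7 : (u * ‖l k‖) ^ 3 = u ^ 3 * ‖l k‖ ^ 3 := by ring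
        rw [h7]
        nlinarith
      linarith
  have hprod : ‖fS l S u‖ ≤ Real.exp (∑ k ∈ Sᶜ, E k) := by
    unfold fS
    rw [norm_prod, Real.exp_sum]
    exact Finset.prod_le_prod (fun k _ => norm_nonneg _) (fun k _ => hpt k)
  -- the total sum
  have hres : m * ((∑ k, l k) / m).re = ∑ k, (l k).re := by
    rw [Complex.div_natCast_re, Complex.re_sum]
    field_simp
  have hyre : m * (yR 2 l).re =
      ∑ k ∈ Finset.univ.filter (fun k => ¬ 2 < ‖l k‖), ((l k) ^ 2).re := by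
    unfold yR
    rw [Complex.div_natCast_re, Complex.re_sum]
    field_simp
  have hsm : ∑ k ∈ Finset.univ.filter (fun k => ¬ 2 < ‖l k‖), ‖l k‖ ^ 2 ≤ m := by
    refine le_trans (Finset.sum_le_sum_of_subset_of_nonneg (Finset.filter_subset _ _) ?_) hl2
    intro k _ _
    positivity
  have htot : ∑ k, E k = -(u * (m * ((∑ k, l k) / m).re)) +
      (u ^ 2 / 2 * ∑ k ∈ Finset.univ.filter (fun k => 2 < ‖l k‖), ‖l k‖ ^ 2 +
      (-(u ^ 2 / 2) * (m * (yR 2 l).re) +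
        2 * u ^ 3 * ∑ k ∈ Finset.univ.filter (fun k => ¬ 2 < ‖l k‖), ‖l k‖ ^ 2)) := by
    rw [hres, hyre]
    simp only [hE, hF]
    rw [Finset.sum_add_distrib, Finset.sum_ite, Finset.sum_neg_distrib, Finset.mul_sum,
      Finset.sum_add_distrib, Finset.mul_sum, Finset.mul_sum, Finset.mul_sum]
  -- the missing terms
  set b : ℝ := 2 * u + 3 / 2 * a * (u * Real.sqrt m) + 2 * u ^ 2 with hb
  have hb0 : 0 ≤ b := by positivity
  have hEb : ∀ k, -(E k) ≤ b := by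
    intro k
    have hrek : (l k).re ≤ ‖l k‖ := Complex.re_le_norm _
    have hsq0 : 0 ≤ Real.sqrt m := Real.sqrt_nonneg _
    have hlk : ‖l k‖ ≤ 2 + 3 / 2 * a * Real.sqrt m := by
      by_cases hk : 2 < ‖l k‖
      · have h1 : ‖l k‖ ^ 2 ≤ 2 * a ^ 2 * m := by
          refine le_trans ?_ hbig
          exact Finset.single_le_sum (f := fun k => ‖l k‖ ^ 2) (fun k _ => by positivity)
            (Finset.mem_filter.2 ⟨Finset.mem_univ k, hk⟩)
        have h2 : ‖l k‖ ^ 2 ≤ (3 / 2 * a * Real.sqrt m) ^ 2 := by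
          have h3 : (3 / 2 * a * Real.sqrt m) ^ 2 = 9 / 4 * a ^ 2 * m := by
            rw [mul_pow, Real.sq_sqrt hM0.le]
            ring
          rw [h3]
          have h4 : 0 ≤ a ^ 2 * m := by positivity
          nlinarith
        have h5 : ‖l k‖ ≤ 3 / 2 * a * Real.sqrt m :=
          (sq_le_sq₀ (norm_nonneg _) (by positivity)).1 h2
        linarith
      · have h1 : ‖l k‖ ≤ 2 := not_lt.1 hk
        have h2 : 0 ≤ 3 / 2 * a * Real.sqrt m := by positivity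
        linarith
    have h1 : u * (l k).re ≤ u * (2 + 3 / 2 * a * Real.sqrt m) :=
      mul_le_mul_of_nonneg_left (hrek.trans hlk) hu0
    have h2 : -(F k) ≤ 2 * u ^ 2 := by
      simp only [hF]
      split
      · have h3 : 0 ≤ u ^ 2 / 2 * ‖l k‖ ^ 2 := by positivity
        have h4 : 0 ≤ 2 * u ^ 2 := by positivity
        linarith
      · next hk =>
        have hk' : ‖l k‖ ≤ 2 := not_lt.1 hk
        have h3 : ((l k) ^ 2).re ≤ 4 := by
          refine (Complex.re_le_norm _).trans ?_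
          rw [norm_pow]
          have := norm_nonneg (l k)
          nlinarith
        have h4 : 0 ≤ u ^ 2 / 2 := by positivity
        have h5 : 0 ≤ 2 * u ^ 3 * ‖l k‖ ^ 2 := by positivity
        nlinarith
    have h3 : -(E k) = u * (l k).re + -(F k) := by
      simp only [hE]
      ring
    rw [h3, hb]
    nlinarith
  have hSsum : -(∑ k ∈ S, E k) ≤ 2 * b := by
    rw [← Finset.sum_neg_distrib]
    have h1 := Finset.sum_le_card_nsmul S (fun k => -(E k)) b (fun k _ => hEb k)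
    rw [nsmul_eq_mul] at h1
    have h2 : (S.card : ℝ) ≤ 2 := by exact_mod_cast hS
    exact h1.trans (mul_le_mul_of_nonneg_right h2 hb0)
  have hsplit : ∑ k ∈ Sᶜ, E k = ∑ k, E k + -(∑ k ∈ S, E k) := by
    have := Finset.sum_add_sum_compl S E
    linarith
  -- final estimate
  set x : ℝ := u * Real.sqrt m with hx
  have hx0 : 0 ≤ x := by positivity
  have hx2 : x ^ 2 = m * u ^ 2 := by
    rw [hx, mul_pow, Real.sq_sqrt hM0.le]
    ring
  set V : ℝ := Real.sqrt U with hV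
  have hV0 : 0 ≤ V := Real.sqrt_nonneg _
  have hV1 : V ≤ 1 := by
    rw [hV]
    exact Real.sqrt_le_one.2 hU1
  have hV2 : V ^ 2 = U := Real.sq_sqrt hU0
  set R : ℝ := ((∑ k, l k) / m).re with hR
  set Y : ℝ := (yR 2 l).re with hYd
  have k1 : m * u ^ 2 * (1 - V) ≤ u * (m * R) := by
    have h1 : u * (1 - V) ≤ a * (1 - V) := mul_le_mul_of_nonneg_right hua (by linarith)
    have h2 : u * (1 - V) ≤ R := h1.trans hs
    have h3 : 0 ≤ u * m := by positivity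
    nlinarith
  have k2 : m * u ^ 2 * (V ^ 2 - 1 / 2 - 3 / 2 * a) ≤ u ^ 2 / 2 * (m * Y) := by
    have h1 : 2 * V ^ 2 - 1 - 3 * a ≤ Y := by rw [hV2]; exact hY
    have h2 : 0 ≤ u ^ 2 / 2 * m := by positivity
    nlinarith
  have k3 : u ^ 2 / 2 * ∑ k ∈ Finset.univ.filter (fun k => 2 < ‖l k‖), ‖l k‖ ^ 2 ≤
      m * u ^ 2 * (a / 32) := by
    have h1 : u ^ 2 / 2 * ∑ k ∈ Finset.univ.filter (fun k => 2 < ‖l k‖), ‖l k‖ ^ 2 ≤
        u ^ 2 / 2 * (2 * a ^ 2 * m) := mul_le_mul_of_nonneg_left hbig (by positivity)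
    have h2 : a ^ 2 ≤ a / 32 := by nlinarith
    have h3 : 0 ≤ m * u ^ 2 := by positivity
    nlinarith
  have k4 : 2 * u ^ 3 * ∑ k ∈ Finset.univ.filter (fun k => ¬ 2 < ‖l k‖), ‖l k‖ ^ 2 ≤
      m * u ^ 2 * (2 * a) := by
    have h1 : 2 * u ^ 3 * ∑ k ∈ Finset.univ.filter (fun k => ¬ 2 < ‖l k‖), ‖l k‖ ^ 2 ≤
        2 * u ^ 3 * m := mul_le_mul_of_nonneg_left hsm (by positivity)
    have h2 : 0 ≤ m * u ^ 2 := by positivity
    have h3 : 2 * u ^ 3 * m = m * u ^ 2 * (2 * u) := by ring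
    rw [h3] at h1
    refine h1.trans (mul_le_mul_of_nonneg_left (by linarith) h2)
  have k5 : 2 * b ≤ 1 + x ^ 2 / 32 := by
    have h1 : 3 / 2 * a * x ≤ 3 / 64 * x := by nlinarith
    have h2 : u ^ 2 ≤ 1 / 1024 := by nlinarith
    have h3 : 0 ≤ (x - 3 / 2) ^ 2 := sq_nonneg _
    rw [hb]
    nlinarith
  have k6 : m * u ^ 2 * (a / 32 + 2 * a + 3 / 2 * a) ≤ m * u ^ 2 * (1 / 8) := by
    refine mul_le_mul_of_nonneg_left (by linarith) (by positivity)
  have k7 : m * u ^ 2 * (1 / 4) ≤ m * u ^ 2 * (1 - V + (V ^ 2 - 1 / 2)) := by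
    refine mul_le_mul_of_nonneg_left ?_ (by positivity)
    nlinarith [sq_nonneg (V - 1 / 2)]
  have k8 : 0 ≤ m * u ^ 2 := by positivity
  have hfin : ∑ k ∈ Sᶜ, E k ≤ 1 + -(1 / 16 * (m * u ^ 2)) := by
    rw [hsplit, htot]
    rw [hx2] at k5
    nlinarith
  calc ‖fS l S u‖ ≤ Real.exp (∑ k ∈ Sᶜ, E k) := hprod
    _ ≤ Real.exp (1 + -(1 / 16 * (m * u ^ 2))) := Real.exp_le_exp.2 hfin
    _ = Real.exp 1 * Real.exp (-(1 / 16 * (m * u ^ 2))) := Real.exp_add _ _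

end Pool.Agent.H695.BV
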